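import Mathlib
import Pool.Agent.Q304.SK.Prod

/-!
# MP_1eaa31_an, Q1: sick products of two infinite compact spaces are metrizable

If `K` and `L` are infinite compact Hausdorff spaces and `K × L` is sick, then `K`, `L` and
`K × L` are metrizable.
-/

set_option autoImplicit false

open TopologicalSpace

namespace Pool.Agent.Results.MP_1eaa31_an.SickProductsMetrizable

universe u v w

/-- `K` is sick: there are a separable Banach lattice `E`, an element `x ≥ 0` of `E` and a linear
injection `T : C(K) → E` preserving the lattice operations whose range is the principal ideal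
`E_x = {y : |y| ≤ r x for some r > 0}`. -/
def Sick (K : Type u) [TopologicalSpace K] : Prop :=
  ∃ (E : Type v) (_ : NormedAddCommGroup E) (_ : Lattice E) (_ : HasSolidNorm E)
    (_ : IsOrderedAddMonoid E) (_ : NormedSpace ℝ E) (_ : PosSMulMono ℝ E) (_ : CompleteSpace E)
    (_ : SeparableSpace E) (x : E) (T : C(K, ℝ) →ₗ[ℝ] E),
    0 ≤ x ∧ Function.Injective T ∧ (∀ f g, T (f ⊔ g) = T f ⊔ T g) ∧
    (∀ f g, T (f ⊓ g) = T f ⊓ T g) ∧ Set.range T = {y : E | ∃ r : ℝ, 0 < r ∧ |y| ≤ r • x}

theorem result (K : Type u) (L : Type w) [TopologicalSpace K] [TopologicalSpace L]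
    [CompactSpace K] [T2Space K] [Infinite K] [CompactSpace L] [T2Space L] [Infinite L]
    (h : Sick.{max u w, v} (K × L)) :
    MetrizableSpace K ∧ MetrizableSpace L ∧ MetrizableSpace (K × L) :=
  Pool.Agent.Q304.SK.metrizable_prod h

end Pool.Agent.Results.MP_1eaa31_an.SickProductsMetrizable
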